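import Pool.Agent.H30.EE.TargetsF

/-!
# Row ALE: a rational normal curve of small height through `x`
-/

set_option autoImplicit false

namespace Pool.Agent.H37.EE

open MvPolynomial SC Pool.Agent.H27.LV Pool.Agent.H17.VG Pool.Agent.H30.EE

/-- L43 with one constant for all `B ≤ R` -/
theorem uni43 (hL43 : T_L43) (R : ℕ) : ∃ C : ℕ, ∀ B : ℕ, 1 ≤ B → B ≤ R →
    ∀ (k K : Type) [Field k] [IsAlgClosed k]
  [CharZero k] [Field K] [Algebra k K] [Algebra.EssFiniteType k K], Algebra.trdeg k K = 1 →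
  ∀ (n β : ℕ) (x : Fin (n + 1) → K) (l0 l1 : Fin (n + 1) → k), el l0 x ≠ 0 →
  hgt k ![el l0 x, el l1 x] = hgt k x → (C * β : ℤ) < hgt k x →
  (∀ l : Fin (n + 1) → k, ∃ (b : ℕ) (g : MvPolynomial (Fin 3) K), b ≤ B ∧ g ≠ 0 ∧
      g.IsHomogeneous b ∧ hF (n := 2) k b g ≤ β ∧ eval ![el l0 x, el l1 x, el l x] g = 0) →
  ∃ r, 1 ≤ r ∧ r ≤ B ∧ (∃ Λ : Submodule K (Fin (n + 1) → K), Module.finrank K Λ = r + 1 ∧
    x ∈ Λ ∧ -dg k Λ ≤ C * β) ∧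
    (r = B → ∃ z : Fin (r + 1) → Fin (n + 1) → K, LinearIndependent K z ∧ z 0 = x ∧
      Da k 2 z ≤ C * β) := by
  choose! Cf hCf using hL43
  refine ⟨∑ B ∈ Finset.range (R + 1), Cf B, ?_⟩
  intro B hB1 hBR k K _ _ _ _ _ _ htr n β x l0 l1 h0 h1 h2 h3
  have hle : Cf B ≤ ∑ B ∈ Finset.range (R + 1), Cf B :=
    Finset.single_le_sum (f := Cf) (fun _ _ => Nat.zero_le _) (Finset.mem_range.2 (by omega))
  have hle' : (Cf B * β : ℤ) ≤ ((∑ B ∈ Finset.range (R + 1), Cf B : ℕ) : ℤ) * β :=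
    mul_le_mul_of_nonneg_right (by exact_mod_cast hle) (Int.natCast_nonneg _)
  obtain ⟨r, hr1, hrB, ⟨Λ, hΛ1, hΛ2, hΛ3⟩, hz⟩ := hCf B hB1 k K htr n β x l0 l1 h0 h1
    (lt_of_le_of_lt hle' h2) h3
  refine ⟨r, hr1, hrB, ⟨Λ, hΛ1, hΛ2, hΛ3.trans hle'⟩, fun h => ?_⟩
  obtain ⟨z, hz1, hz2, hz3⟩ := hz h
  exact ⟨z, hz1, hz2, hz3.trans hle'⟩

theorem pf_ALE (_hHG : T_HG) (hDG0 : T_DG0) (hL43 : T_L43) (hFNU : T_FNU) (hPHS : T_PHS) :
    T_ALE := by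
  intro ε R hε hε1 hR hR1
  classical
  have hR0 : 1 ≤ R := by
    by_contra h
    have h0 : R = 0 := by omega
    subst h0
    norm_num at hR1
    linarith
  obtain ⟨C, hC⟩ := uni43 hL43 R
  obtain ⟨ε1, c1, hε10, hε11, hc1, n1, hn1⟩ := hFNU ε R hε hε1 hR hR1
  obtain ⟨C2, hC2⟩ := exists_nat_ge (8 * (C : ℚ) / c1)
  obtain ⟨n2, hn2⟩ := exists_nat_gt (64 * (C : ℚ) / (ε * c1))
  refine ⟨C2, n1 + n2 + R + 2, ?_⟩
  intro n e hn hne k _ _ _ c hc K _ _ _ htr D hD x hx hFx S hS hχ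
  obtain ⟨a, ha1, ha2, ha3, hp1, hp2⟩ := hn1 n e (by omega) hne
  have hnR : R ≤ n := by omega
  have he2 : 2 ≤ e := by
    have h1 : (n : ℚ) ≤ e + 1 := by
      have : (n : ℚ) ≤ (1 + ε) * n := by
        have : 0 ≤ ε * n := by positivity
        linarith
      linarith
    have h2 : n ≤ e + 1 := by exact_mod_cast h1
    omega
  set h : ℤ := hgt k x with hh
  have hhq : (0 : ℚ) < (h : ℚ) := by exact_mod_cast hx
  have ha0 : 0 < a := by omega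
  have ha0' : (0 : ℤ) < (a : ℤ) := by exact_mod_cast ha0
  obtain ⟨β, hβ⟩ : ∃ β : ℕ, (β : ℤ) = 8 * h / a := by
    refine ⟨(8 * h / a).toNat, Int.toNat_of_nonneg ?_⟩
    exact Int.ediv_nonneg (by omega) ha0'.le
  have hβ1 : ∀ y : ℤ, (a : ℤ) * y ≤ 8 * h → y ≤ β := by
    intro y hy
    rw [hβ, Int.le_ediv_iff_mul_le ha0', mul_comm]
    exact hy
  have hβ2 : (a : ℤ) * β ≤ 8 * h := by
    rw [hβ]
    exact Int.mul_ediv_self_le ha0'.ne'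
  have hn0 : (0 : ℚ) < n := by
    have : 0 < n := by omega
    exact_mod_cast this
  have hkey : (C : ℚ) * β * (c1 * n) ≤ 8 * C * h := by
    have h1 : (a : ℚ) * β ≤ 8 * h := by exact_mod_cast hβ2
    have h2 : (C : ℚ) * β * (c1 * n) ≤ C * β * a :=
      mul_le_mul_of_nonneg_left ha3 (by positivity)
    have h3 : (C : ℚ) * (a * β) ≤ C * (8 * h) := mul_le_mul_of_nonneg_left h1 (by positivity)
    linarith
  have hc1n : 64 * (C : ℚ) < ε * (c1 * n) := by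
    have h1 : (n2 : ℚ) ≤ n := by exact_mod_cast (by omega : n2 ≤ n)
    have h2 := lt_of_lt_of_le hn2 h1
    rw [div_lt_iff₀ (by positivity)] at h2
    linarith
  have hc1n0 : (0 : ℚ) < c1 * n := by positivity
  have hsmall : (C : ℚ) * β ≤ ε / 8 * h := by
    by_contra hcon
    push Not at hcon
    have h1 : ε / 8 * h * (c1 * n) < C * β * (c1 * n) := mul_lt_mul_of_pos_right hcon hc1n0
    have h2 : 64 * (C : ℚ) * h < ε * (c1 * n) * h := mul_lt_mul_of_pos_right hc1n hhq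
    nlinarith
  have hlt : ((C : ℤ) * β) < h := by
    have h1 : ε / 8 * h < h := by nlinarith
    have h2 : (C : ℚ) * β < h := lt_of_le_of_lt hsmall h1
    exact_mod_cast h2
  have hchi : (((canDeg D : ℤ) + S.card : ℤ) : ℚ) < h := by exact_mod_cast hχ
  -- phase 1
  have ph1 : ∃ r, 1 ≤ r ∧ r ≤ R ∧ ∃ Λ : Submodule K (Fin (n + 1) → K),
      Module.finrank K Λ = r + 1 ∧ x ∈ Λ ∧ ((-dg k Λ : ℤ) : ℚ) ≤ ε / 8 * h := by
    obtain ⟨q1, q2⟩ := hp1 h (((canDeg D : ℤ) + S.card : ℤ) : ℚ) hhq hchi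
    have htop : dg k (⊤ : Submodule K (Fin (n + 1) → K)) = 0 := (hDG0 k K htr (Fin (n + 1))).2.1
    obtain ⟨l0, l1, w1, w2, w3⟩ := hPHS k n e c he2 hc K htr D hD x hx hFx S hS n a R ⊤ (ε1 * h)
      (le_refl n) Submodule.mem_top (by rw [finrank_top, Module.finrank_fin_fun])
      (by positivity) (by nlinarith) hR0 ha1 ha2 q1 (by
        rw [htop]
        push_cast at q2 ⊢
        have e1 : (((e : ℚ) - n) * h - ((canDeg D : ℚ) + S.card) + n * 0 -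
          ε1 * h * ((n + 1) * (n - n + 1) - 2)) =
          (((e : ℚ) - n) * h - ((canDeg D : ℚ) + S.card) - ε1 * h * (n - 1)) := by ring
        rw [e1]
        exact q2)
    obtain ⟨r, hr1, hrR, ⟨Λ, hΛ1, hΛ2, hΛ3⟩, -⟩ := hC R hR0 (le_refl R) k K htr n β x l0 l1 w1 w2
      hlt (fun l => by
        obtain ⟨b, g, g1, g2, g3, g4, g5⟩ := w3 l
        exact ⟨b, g, g1, g2, g3, hβ1 _ g4, g5⟩)
    refine ⟨r, hr1, hrR, Λ, hΛ1, hΛ2, ?_⟩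
    have h1 : ((-dg k Λ : ℤ) : ℚ) ≤ ((C * β : ℤ) : ℚ) := by exact_mod_cast hΛ3
    push_cast at h1 ⊢
    exact h1.trans hsmall
  -- minimality
  have hex : ∃ r, 1 ≤ r ∧ ∃ Λ : Submodule K (Fin (n + 1) → K),
      Module.finrank K Λ = r + 1 ∧ x ∈ Λ ∧ ((-dg k Λ : ℤ) : ℚ) ≤ ε / 8 * h := by
    obtain ⟨r, hr1, -, hΛ⟩ := ph1
    exact ⟨r, hr1, hΛ⟩
  obtain ⟨hr1, Λ, hΛ1, hΛ2, hΛ3⟩ := Nat.find_spec hex
  have hmin : ∀ r', 1 ≤ r' → (∃ Λ : Submodule K (Fin (n + 1) → K),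
      Module.finrank K Λ = r' + 1 ∧ x ∈ Λ ∧ ((-dg k Λ : ℤ) : ℚ) ≤ ε / 8 * h) →
      Nat.find hex ≤ r' := fun r' h1 h2 => Nat.find_min' hex ⟨h1, h2⟩
  set r := Nat.find hex with hr
  clear_value r
  have hrR : r ≤ R := by
    obtain ⟨r', h1, h2, h3⟩ := ph1
    exact (hmin r' h1 h3).trans h2
  -- phase 2
  obtain ⟨q0, q1, q2, q3⟩ := hp2 r hr1 hrR h (((canDeg D : ℤ) + S.card : ℤ) : ℚ)
    ((-dg k Λ : ℤ) : ℚ) ((1 + ε / 8) * h / (r + 1)) hhq hchi hΛ3 rfl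
  obtain ⟨l0, l1, w1, w2, w3⟩ := hPHS k n e c he2 hc K htr D hD x hx hFx S hS r a r Λ
    ((1 + ε / 8) * h / (r + 1)) (hrR.trans hnR) hΛ2 hΛ1 q0 q1 hr1 (by omega) ha2 q2 (by
      push_cast at q3 ⊢
      have e1 : ∀ X Y : ℚ, X - n * -(dg k Λ : ℚ) - Y = X + n * (dg k Λ : ℚ) - Y := by
        intro X Y
        ring
      rw [e1] at q3
      exact q3)
  obtain ⟨r2, hr2, hr2r, hΛ', hz⟩ := hC r hr1 hrR k K htr n β x l0 l1 w1 w2
      hlt (fun l => by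
        obtain ⟨b, g, g1, g2, g3, g4, g5⟩ := w3 l
        exact ⟨b, g, g1, g2, g3, hβ1 _ g4, g5⟩)
  have hrr : r2 = r := by
    refine le_antisymm hr2r (hmin r2 hr2 ?_)
    obtain ⟨Λ', h1, h2, h3⟩ := hΛ'
    refine ⟨Λ', h1, h2, ?_⟩
    have h1 : ((-dg k Λ' : ℤ) : ℚ) ≤ ((C * β : ℤ) : ℚ) := by exact_mod_cast h3
    push_cast at h1 ⊢
    exact h1.trans hsmall
  subst hrr
  obtain ⟨z, hz1, hz2, hz3⟩ := hz rfl
  refine ⟨r2, z, hr2, hrR, hz1, hz2, ?_⟩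
  have h1 : ((n : ℤ) * Da k 2 z : ℤ) ≤ n * (C * β) :=
    mul_le_mul_of_nonneg_left hz3 (Int.natCast_nonneg _)
  refine h1.trans ?_
  have h2 : (n : ℚ) * (C * β) ≤ C2 * h := by
    have h3 : (8 * (C : ℚ)) ≤ C2 * c1 := by
      rw [div_le_iff₀ hc1] at hC2
      exact hC2
    have h4 : 8 * (C : ℚ) * h ≤ C2 * c1 * h := mul_le_mul_of_nonneg_right h3 hhq.le
    have h5 : c1 * ((n : ℚ) * (C * β)) ≤ c1 * (C2 * h) := by linarith
    exact le_of_mul_le_mul_left h5 hc1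
  exact_mod_cast h2

end Pool.Agent.H37.EE
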