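import Pool.Agent.H30.EE.TargetsF
import Pool.Agent.H27.LV.Gen

/-!
# Row MNE: the main theorem, in homogeneous coordinates
-/

set_option autoImplicit false

namespace Pool.Agent.H37.EE

open MvPolynomial SC Pool.Agent.H27.LV Pool.Agent.H17.VG Pool.Agent.H30.EE

theorem pf_MNE (hHG : T_HG) (hALE : T_ALE) (hG6G : T_G6G) (hQQQ : T_QQQ) : T_MNE := by
  intro ε R hε hε1 hR hR1
  classical
  obtain ⟨C2, n0, hA⟩ := hALE ε R hε hε1 hR hR1
  obtain ⟨n1, hG⟩ := hG6G ε R C2 hε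
  refine ⟨n0 + n1, ?_⟩
  intro n e hn hne
  have hQ : ∀ r : ℕ, 1 ≤ r → _ := fun r hr => hQQQ n (e + 1) r hr (by omega)
  choose! Cf hCf using hQ
  refine ⟨1 + 2 * ∑ r ∈ Finset.range (R + 1), Cf r, ?_⟩
  intro k _ _ _ c hc K _ _ _ htr D hD x hx hFx hno S hS
  have hCC : (0 : ℤ) ≤ ((∑ r ∈ Finset.range (R + 1), Cf r : ℕ) : ℤ) := Int.natCast_nonneg _
  rcases le_or_gt (hgt k x) ((canDeg D : ℤ) + S.card) with hcase | hcase
  · push_cast
    push_cast at hCC
    nlinarith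
  · obtain ⟨r, z, hr1, hrR, hz1, hz2, hz3⟩ := hA n e (by omega) hne k c hc K htr D hD x hx hFx S
      hS hcase
    have hnot := hno r z hr1 hrR hz1 hz2
    have h1 : Da k 2 z ≤ (canDeg D : ℤ) + S.card := by
      rcases hG n e r (by omega) hne hr1 hrR k c hc K htr D hD z hz1 (by rw [hz2]; exact hx)
        (by rw [hz2]; exact hFx) S (by rw [hz2]; exact hS) (by rw [hz2]; exact hcase)
        (by rw [hz2]; exact hz3) with h | h
      · exact h
      · exact absurd h hnot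
    have h0 : 0 ≤ Da k 2 z := by
      have : Fintype (Mon (n + 1) 2) := Fintype.ofFinite _
      exact (hHG k K htr (Fin (r * 2 + 1) → Mon (n + 1) 2) (mnr (RM 2 z))).2.1
    have hχ0 : 0 ≤ (canDeg D : ℤ) + S.card := h0.trans h1
    obtain ⟨β, hβ⟩ := Int.eq_ofNat_of_zero_le hχ0
    have h2 := hCf r hr1 k (frm c) (frm_homog c) K htr D hD z hz1 (by rw [hz2]; exact hx)
      (by rw [hz2]; exact hFx) hnot S (by rw [hz2]; push_cast; exact_mod_cast hS) hχ0 β
      (by rw [← hβ]; exact h1)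
    rw [hz2, ← hβ] at h2
    have h3 : (Cf r : ℤ) ≤ ((∑ r ∈ Finset.range (R + 1), Cf r : ℕ) : ℤ) := by
      exact_mod_cast Finset.single_le_sum (f := Cf) (fun _ _ => Nat.zero_le _)
        (Finset.mem_range.2 (by omega))
    refine h2.trans ?_
    push_cast
    push_cast at h3
    nlinarith

end Pool.Agent.H37.EE
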